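import Pool.Agent.W734.TWB.Stms

/-!
# Stability of the second kind: attractive pair and repulsive three-body interactions
(MP_a755a8_mp): the set of admissible exponents is exactly `β < 1/3`.  Definitions and parts.
-/

set_option autoImplicit false

noncomputable section

namespace Pool.Agent.W734.STB

open MeasureTheory Set Filter Metric Pool.Agent.W734.TWB

/-- scaled pair potential `N^(3β-1) W(N^β z)` -/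
def Wb (β : ℝ) (N : ℕ) (W : E3 → ℝ) (z : E3) : ℝ :=
  (N : ℝ) ^ (3 * β - 1) * W ((N : ℝ) ^ β • z)

/-- admissible attractive pair potentials -/
structure AdmA (W : E3 → ℝ) : Prop where
  meas : Measurable W
  even : ∀ x, W (-x) = W x
  nonpos : ∀ x, W x ≤ 0
  bdd : ∃ M : ℝ, ∀ x, -M ≤ W x
  supp : HasCompactSupport W

/-- the energy of an `N`-body function -/
def enC (β : ℝ) (N : ℕ) (Vext W : E3 → ℝ) (V : E3 × E3 → ℝ) (ψ : Cfg N → ℂ) : ℝ :=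
  ∫ x, (kin ψ x + (∑ i : Fin N, Vext (x i)) * ‖ψ x‖ ^ 2 + pairS (Wb β N W) x * ‖ψ x‖ ^ 2
    + tripS (Vn N V) x * ‖ψ x‖ ^ 2)

/-- positivity of the three-body scattering energy -/
def S_B2P : Prop := ∀ V : E3 × E3 → ℝ, AdmV V → ¬ (V =ᵐ[volume] 0) → 0 < b2 V

/-- three particles in a box -/
def S_T3 : Prop := ∀ V : E3 × E3 → ℝ, AdmV V → ¬ (V =ᵐ[volume] 0) →
  ∃ c s0 : ℝ, 0 < c ∧ 0 < s0 ∧ ∀ (N : ℕ) (lam : ℝ), 1 ≤ N → 0 < lam →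
    s0 ≤ Real.sqrt N * lam → ∀ a : E3,
    BoxIneq (fun _ => 1) (fun _ => 0) (Vn N V) a lam 3 (c / ((N : ℝ) ^ 2 * lam ^ 6))

/-- many particles in a box, from three particles in subboxes -/
def S_ST1 : Prop := ∀ v : E3 × E3 → ℝ, PotOK (fun _ => 0) v → ∀ (l : ℝ) (M : ℕ) (e : ℝ),
  0 < l → 1 ≤ M → 0 ≤ e →
  (∀ a : E3, BoxIneq (fun _ => 1) (fun _ => 0) v a (l / M) 3 e) →
  ∀ (N : ℕ) (J : Finset (Fin N)) (k : Fin N → (Fin 3 → ℤ)) (α : Fin 3 → ℤ),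
  (∀ i ∈ J, k i = α) → 4 * M ^ 3 ≤ J.card → ∀ F : Cfg N → ℂ, ContDiff ℝ 1 F →
    (J.card : ℝ) / 6 * e * (∫ x in reg l k, ‖F x‖ ^ 2) ≤
      ∫ x in reg l k, (kinJ J F x + tripJ J v x * ‖F x‖ ^ 2)

/-- choice of the number of subboxes -/
def S_ST2 : Prop := ∀ β c s0 D : ℝ, 0 < β → β < 1 / 3 → 0 < c → 0 < s0 → 0 < D →
  ∃ (C : ℝ) (N0 : ℕ), 0 < C ∧ 1 ≤ N0 ∧ ∀ N : ℕ, N0 ≤ N → ∀ n : ℕ, n ≤ N →
    D * (n : ℝ) ^ 2 * (N : ℝ) ^ (3 * β - 1) ≤ C * n ∨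
    ∃ M : ℕ, 1 ≤ M ∧ 4 * M ^ 3 ≤ n ∧ s0 ≤ Real.sqrt N * ((N : ℝ) ^ (-β) / M) ∧
      D * (n : ℝ) ^ 2 * (N : ℝ) ^ (3 * β - 1) ≤
        (n : ℝ) / 6 * (c / ((N : ℝ) ^ 2 * ((N : ℝ) ^ (-β) / M) ^ 6))

/-- pair counting -/
def S_PC : Prop := ∀ R : ℝ, 0 < R → ∃ D : ℝ, 0 < D ∧ ∀ l : ℝ, 0 < l → ∀ (N : ℕ)
  (k : Fin N → (Fin 3 → ℤ)) (x : Cfg N), x ∈ reg l k →
  (∑ i : Fin N, ∑ j ∈ Finset.Ioi i, (if ‖x i - x j‖ ≤ R * l then (1 : ℝ) else 0)) ≤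
    D * ∑ α ∈ Finset.univ.image k, ((Finset.univ.filter (fun i => k i = α)).card : ℝ) ^ 2

/-- stability for `β < 1/3`; no symmetry and no trap needed -/
def S_STAB : Prop := ∀ β : ℝ, 0 < β → β < 1 / 3 → ∀ (W : E3 → ℝ) (V : E3 × E3 → ℝ), AdmA W →
  AdmV V → ¬ (V =ᵐ[volume] 0) → ∃ C : ℝ, 0 < C ∧ ∀ N : ℕ, 1 ≤ N → ∀ F : Cfg N → ℂ,
  ContDiff ℝ 1 F → HasCompactSupport F →
    -(C * N) * (∫ x, ‖F x‖ ^ 2) ≤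
      ∫ x, (kin F x + (pairS (Wb β N W) x + tripS (Vn N V) x) * ‖F x‖ ^ 2)

/-- instability for `1/3 ≤ β ≤ 1`, for every trap -/
def S_UNST : Prop := ∀ β : ℝ, 1 / 3 ≤ β → β ≤ 1 → ∃ (W : E3 → ℝ) (V : E3 × E3 → ℝ), AdmA W ∧
  AdmV V ∧ ¬ (V =ᵐ[volume] 0) ∧ ∀ Vext : E3 → ℝ, AdmE Vext → ∀ C : ℝ, ∃ N : ℕ, 1 ≤ N ∧
    ∃ ψ : Cfg N → ℂ, ContDiff ℝ ((⊤ : ℕ∞) : WithTop ℕ∞) ψ ∧ HasCompactSupport ψ ∧
      (∀ σ : Equiv.Perm (Fin N), ∀ x, ψ (x ∘ σ) = ψ x) ∧ ∫ x, ‖ψ x‖ ^ 2 = 1 ∧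
      enC β N Vext W V ψ < -(C * N)

end Pool.Agent.W734.STB
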